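import Mathlib

set_option autoImplicit false

namespace Pool.Agent.Results.MP_935800_an.NoLimit

open Set MeasureTheory Filter Topology
open scoped ENNReal

/-- The class `F^k_1(D)`. -/
def Fk (k : ℕ) (D : Set ℝ) : Set (ℝ → ℝ) :=
  {f | ContDiffOn ℝ k f (interior D) ∧ (∀ x ∈ D, |f x| ≤ 1) ∧
    ∀ m ≤ k, ∀ x ∈ interior D, |iteratedDeriv m f x| ≤ 1}

/-- The `n`-th minimal worst-case error for integration over `D`. -/
noncomputable def err (D : Set ℝ) (F : Set (ℝ → ℝ)) (n : ℕ) : ℝ≥0∞ :=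
  ⨅ (x : Fin n → D) (φ : (Fin n → ℝ) → ℝ),
    ⨆ f ∈ F, ENNReal.ofReal |(∫ y in D, f y) - φ (fun i => f (x i))|

/-- The set `(0,1)` without the points `1/m`. -/
def DD : Set ℝ := {x | x ∈ Ioo (0:ℝ) 1 ∧ ∀ m : ℕ, x⁻¹ ≠ m}

/-- The components. -/
def J (m : ℕ) : Set ℝ := Ioo ((m + 1 : ℝ)⁻¹) ((m : ℝ)⁻¹)

theorem floor_J {m : ℕ} (hm : 1 ≤ m) {x : ℝ} (hx : x ∈ J m) : ⌊x⁻¹⌋₊ = m ∧ (m:ℝ) < x⁻¹ ∧ x⁻¹ < m + 1 := by
  have hm0 : (0:ℝ) < m := by exact_mod_cast hm
  have hx0 : 0 < x := lt_trans (by positivity) hx.1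
  have h1 : (m:ℝ) < x⁻¹ := by
    rw [lt_inv_comm₀ hm0 hx0]; exact hx.2
  have h2 : x⁻¹ < m + 1 := by
    rw [inv_lt_comm₀ hx0 (by positivity)]; exact hx.1
  refine ⟨?_, h1, h2⟩
  rw [Nat.floor_eq_iff (by positivity)]
  exact ⟨h1.le, h2⟩

theorem J_sub {m : ℕ} (hm : 1 ≤ m) : J m ⊆ DD := by
  intro x hx
  obtain ⟨_, h1, h2⟩ := floor_J hm hx
  have hm1 : (1:ℝ) ≤ m := by exact_mod_cast hm
  have hx0 : 0 < x := lt_trans (by positivity) hx.1
  refine ⟨⟨hx0, ?_⟩, ?_⟩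
  · exact lt_of_lt_of_le hx.2 (inv_le_one_of_one_le₀ hm1)
  · intro j hj
    rw [hj] at h1 h2
    have h3 : m < j := by exact_mod_cast h1
    have h4 : j < m + 1 := by exact_mod_cast h2
    omega

theorem mem_J {x : ℝ} (hx : x ∈ DD) : 1 ≤ ⌊x⁻¹⌋₊ ∧ x ∈ J ⌊x⁻¹⌋₊ := by
  obtain ⟨⟨h0, h1⟩, hne⟩ := hx
  have hinv : 1 < x⁻¹ := (one_lt_inv₀ h0).mpr h1
  have hfl : 1 ≤ ⌊x⁻¹⌋₊ := by
    rw [Nat.one_le_floor_iff]; exact hinv.le
  refine ⟨hfl, ?_⟩
  have hpos : (0:ℝ) < (⌊x⁻¹⌋₊ : ℝ) := by exact_mod_cast hfl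
  have h2 : (⌊x⁻¹⌋₊ : ℝ) < x⁻¹ := lt_of_le_of_ne (Nat.floor_le (by positivity)) (hne _).symm
  have h3 : x⁻¹ < (⌊x⁻¹⌋₊ : ℝ) + 1 := Nat.lt_floor_add_one _
  constructor
  · exact (inv_lt_comm₀ h0 (by positivity)).mp h3
  · exact (lt_inv_comm₀ hpos h0).mp h2

theorem isOpen_DD : IsOpen DD := by
  rw [isOpen_iff_mem_nhds]
  intro x hx
  obtain ⟨h1, h2⟩ := mem_J hx
  exact mem_of_superset (isOpen_Ioo.mem_nhds h2) (J_sub h1)

theorem countable_diff : (Icc (0:ℝ) 1 \ DD).Countable := by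
  have h : Icc (0:ℝ) 1 \ DD ⊆ {0, 1} ∪ range (fun m : ℕ => (m:ℝ)⁻¹) := by
    rintro x ⟨⟨h0, h1⟩, hx⟩
    by_cases e0 : x = 0
    · left; left; exact e0
    by_cases e1 : x = 1
    · left; right; exact e1
    right
    by_contra hno
    apply hx
    refine ⟨⟨lt_of_le_of_ne h0 (Ne.symm e0), lt_of_le_of_ne h1 e1⟩, ?_⟩
    intro m hm
    exact hno ⟨m, by
      change (m:ℝ)⁻¹ = x
      rw [← hm, inv_inv]⟩
  exact (((countable_singleton _).insert _).union (countable_range _)).mono h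

theorem DD_sub : DD ⊆ Icc 0 1 := fun _ hx => ⟨hx.1.1.le, hx.1.2.le⟩

theorem vol_DD : volume DD = 1 := by
  have h1 : volume (Icc (0:ℝ) 1 \ DD) = 0 := countable_diff.measure_zero _
  have h2 : volume (Icc (0:ℝ) 1) = volume DD := by
    apply le_antisymm
    · calc volume (Icc (0:ℝ) 1) ≤ volume (DD ∪ (Icc (0:ℝ) 1 \ DD)) := measure_mono (by
            intro x hx
            by_cases h : x ∈ DD
            · exact Or.inl h
            · exact Or.inr ⟨hx, h⟩)
        _ ≤ volume DD + volume (Icc (0:ℝ) 1 \ DD) := measure_union_le _ _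
        _ = volume DD := by rw [h1, add_zero]
    · exact measure_mono DD_sub
  rw [← h2, Real.volume_Icc]; simp

theorem frontier_DD : volume (frontier DD) = 0 := by
  apply measure_mono_null _ (countable_diff.measure_zero volume)
  rw [isOpen_DD.frontier_eq]
  exact sdiff_subset_sdiff_left (closure_minimal DD_sub isClosed_Icc)

/-- The fooling function for a finite set `T` of components. -/
noncomputable def fool (T : Finset ℕ) (x : ℝ) : ℝ := if ⌊x⁻¹⌋₊ ∈ T then 0 else 1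

theorem fool_locally (T : Finset ℕ) {x : ℝ} (hx : x ∈ DD) (c : ℝ) :
    (fun y => c * fool T y) =ᶠ[𝓝 x] fun _ => c * fool T x := by
  obtain ⟨h1, h2⟩ := mem_J hx
  filter_upwards [isOpen_Ioo.mem_nhds h2] with y hy
  unfold fool
  rw [(floor_J h1 hy).1]

theorem fool_mem (T : Finset ℕ) (k : ℕ) {c : ℝ} (hc : |c| ≤ 1) :
    (fun y => c * fool T y) ∈ Fk k DD := by
  have hb : ∀ x, |c * fool T x| ≤ 1 := by
    intro x
    unfold fool
    split_ifs
    · simp
    · simpa using hc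
  refine ⟨?_, fun x _ => hb x, ?_⟩
  · intro x hx
    rw [isOpen_DD.interior_eq] at hx
    exact ((contDiffAt_const (c := c * fool T x)).congr_of_eventuallyEq
      (fool_locally T hx c)).contDiffWithinAt
  · intro m _ x hx
    rw [isOpen_DD.interior_eq] at hx
    rw [(fool_locally T hx c).iteratedDeriv_eq]
    rw [iteratedDeriv_const]
    split_ifs
    · exact hb x
    · simp

theorem vol_J {m : ℕ} (hm : 1 ≤ m) : volume (J m) = ENNReal.ofReal ((m:ℝ)⁻¹ - ((m:ℝ) + 1)⁻¹) :=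
  Real.volume_Ioo

theorem measurable_fool (T : Finset ℕ) : Measurable (fool T) := by
  have h : MeasurableSet {x : ℝ | ⌊x⁻¹⌋₊ ∈ T} :=
    (Nat.measurable_floor.comp measurable_inv) (MeasurableSet.of_discrete (s := (T : Set ℕ)))
  exact Measurable.ite h measurable_const measurable_const

theorem int_fool (T : Finset ℕ) (n : ℕ) (hn : 1 ≤ n) (hT : T.card ≤ n) :
    1 / (2 * (2 * (n:ℝ) + 1)) ≤ ∫ y in DD, fool T y := by
  classical
  set U : Finset ℕ := Finset.Icc 1 (2 * n) \ T with hU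
  have hUc : n ≤ U.card := by
    have h1 := Finset.le_card_sdiff T (Finset.Icc 1 (2 * n))
    rw [Nat.card_Icc, ← hU] at h1
    omega
  have hUm : ∀ m ∈ U, 1 ≤ m ∧ m ≤ 2 * n ∧ m ∉ T := by
    intro m hm
    rw [hU, Finset.mem_sdiff, Finset.mem_Icc] at hm
    exact ⟨hm.1.1, hm.1.2, hm.2⟩
  have hpt : ∀ y ∈ DD, (∑ m ∈ U, (J m).indicator (fun _ => (1:ℝ)) y) ≤ fool T y := by
    intro y hy
    obtain ⟨h1, h2⟩ := mem_J hy
    have hz : ∀ m ∈ U, m ≠ ⌊y⁻¹⌋₊ → (J m).indicator (fun _ => (1:ℝ)) y = 0 := by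
      intro m hm hne
      apply indicator_of_notMem
      intro hyJ
      exact hne (floor_J (hUm m hm).1 hyJ).1.symm
    by_cases hin : ⌊y⁻¹⌋₊ ∈ U
    · rw [Finset.sum_eq_single_of_mem _ hin hz]
      have : fool T y = 1 := by
        unfold fool
        rw [if_neg (hUm _ hin).2.2]
      rw [this, indicator_of_mem h2]
    · rw [Finset.sum_eq_zero (fun m hm => hz m hm (fun h => hin (h ▸ hm)))]
      unfold fool
      split_ifs <;> norm_num
  have hfin : volume DD ≠ ∞ := by rw [vol_DD]; simp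
  have hint1 : ∀ m, IntegrableOn ((J m).indicator (fun _ => (1:ℝ))) DD := by
    intro m
    exact (integrableOn_const hfin).indicator measurableSet_Ioo
  have hint2 : IntegrableOn (fool T) DD := by
    apply Integrable.mono' (integrableOn_const (C := (1:ℝ)) hfin) (measurable_fool T).aestronglyMeasurable
    apply Eventually.of_forall
    intro y
    unfold fool
    split_ifs <;> simp
  have hle : (∫ y in DD, ∑ m ∈ U, (J m).indicator (fun _ => (1:ℝ)) y) ≤ ∫ y in DD, fool T y := by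
    apply setIntegral_mono_on _ hint2 isOpen_DD.measurableSet hpt
    exact integrable_finsetSum _ fun m _ => hint1 m
  rw [integral_finsetSum _ fun m _ => hint1 m] at hle
  have hval : ∀ m ∈ U, 1 / ((2 * (n:ℝ)) * (2 * n + 1)) ≤ ∫ y in DD, (J m).indicator (fun _ => (1:ℝ)) y := by
    intro m hm
    obtain ⟨hm1, hm2, _⟩ := hUm m hm
    rw [setIntegral_indicator (show MeasurableSet (J m) from measurableSet_Ioo), inter_eq_self_of_subset_right (J_sub hm1),
      setIntegral_const, Measure.real, vol_J hm1]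
    have hm0 : (1:ℝ) ≤ m := by exact_mod_cast hm1
    have hm2' : (m:ℝ) ≤ 2 * n := by exact_mod_cast hm2
    have e : (m:ℝ)⁻¹ - ((m:ℝ) + 1)⁻¹ = 1 / (m * (m + 1)) := by
      field_simp; ring
    rw [e, ENNReal.toReal_ofReal (by positivity), smul_eq_mul, mul_one]
    apply one_div_le_one_div_of_le (by positivity)
    apply mul_le_mul hm2' (by linarith) (by positivity) (by positivity)
  have hsum : (U.card : ℝ) * (1 / ((2 * (n:ℝ)) * (2 * n + 1))) ≤
      ∑ m ∈ U, ∫ y in DD, (J m).indicator (fun _ => (1:ℝ)) y := by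
    rw [← nsmul_eq_mul]
    exact Finset.card_nsmul_le_sum _ _ _ hval
  have hn0 : (0:ℝ) < n := by exact_mod_cast hn
  have hc : (n:ℝ) ≤ U.card := by exact_mod_cast hUc
  calc 1 / (2 * (2 * (n:ℝ) + 1)) = n * (1 / ((2 * (n:ℝ)) * (2 * n + 1))) := by
        field_simp
    _ ≤ (U.card : ℝ) * (1 / ((2 * (n:ℝ)) * (2 * n + 1))) := by
        apply mul_le_mul_of_nonneg_right hc (by positivity)
    _ ≤ _ := hsum
    _ ≤ _ := hle

theorem err_lower (k n : ℕ) (hn : 1 ≤ n) :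
    ENNReal.ofReal (1 / (2 * (2 * (n:ℝ) + 1))) ≤ err DD (Fk k DD) n := by
  classical
  unfold err
  refine le_iInf fun x => le_iInf fun φ => ?_
  set T : Finset ℕ := Finset.univ.image (fun i => ⌊(x i : ℝ)⁻¹⌋₊) with hT
  have hcard : T.card ≤ n := by
    refine Finset.card_image_le.trans ?_
    simp
  have hS := int_fool T n hn hcard
  set S := ∫ y in DD, fool T y with hSdef
  have hval : ∀ i, fool T (x i) = 0 := by
    intro i
    unfold fool
    rw [if_pos]
    rw [hT]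
    exact Finset.mem_image_of_mem _ (Finset.mem_univ i)
  have hz : ∀ c : ℝ, (fun i => c * fool T (x i)) = fun _ => 0 := by
    intro c; funext i; rw [hval, mul_zero]
  have key : ∀ c : ℝ, |c| ≤ 1 → ENNReal.ofReal |c * S - φ (fun _ => 0)| ≤
      ⨆ f ∈ Fk k DD, ENNReal.ofReal |(∫ y in DD, f y) - φ (fun i => f (x i))| := by
    intro c hc
    have h := le_iSup₂ (f := fun (f : ℝ → ℝ) (_ : f ∈ Fk k DD) =>
      ENNReal.ofReal |(∫ y in DD, f y) - φ (fun i => f (x i))|) (fun y => c * fool T y)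
      (fool_mem T k hc)
    simp only [hz, integral_const_mul] at h
    exact h
  rcases le_total (φ fun _ => 0) 0 with h | h
  · refine le_trans (ENNReal.ofReal_le_ofReal ?_) (key 1 (by simp))
    rw [one_mul]
    exact hS.trans (le_trans (by linarith) (le_abs_self _))
  · refine le_trans (ENNReal.ofReal_le_ofReal ?_) (key (-1) (by simp))
    exact hS.trans (le_trans (by linarith) (neg_le_abs _))

/-- There is a bounded Jordan measurable set `D ⊆ ℝ` of measure `1` such that for every `k ≥ 2`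
the sequence `e(n, F^k_1(D)) n^k` has no finite limit. -/
theorem result : ∃ D : Set ℝ, IsOpen D ∧ Bornology.IsBounded D ∧ volume (frontier D) = 0 ∧
    volume D = 1 ∧ ∀ k : ℕ, 2 ≤ k →
      ¬ ∃ C : ℝ≥0∞, C ≠ ∞ ∧ Tendsto (fun n : ℕ => err D (Fk k D) n * (n:ℝ≥0∞) ^ k) atTop (𝓝 C) := by
  refine ⟨DD, isOpen_DD, Metric.isBounded_Icc 0 1 |>.subset DD_sub, frontier_DD, vol_DD, ?_⟩
  rintro k hk ⟨C, hC, hlim⟩
  apply hC
  apply tendsto_nhds_unique hlim
  have h1 : Tendsto (fun n : ℕ => ENNReal.ofReal ((n:ℝ) / 6)) atTop (𝓝 ∞) :=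
    ENNReal.tendsto_ofReal_atTop.comp (tendsto_natCast_atTop_atTop.atTop_div_const (by norm_num))
  apply tendsto_nhds_top_mono h1
  filter_upwards [eventually_ge_atTop 1] with n hn
  have hn1 : (1:ℝ) ≤ n := by exact_mod_cast hn
  calc ENNReal.ofReal ((n:ℝ) / 6) ≤ ENNReal.ofReal (1 / (2 * (2 * (n:ℝ) + 1)) * (n:ℝ) ^ k) := by
        apply ENNReal.ofReal_le_ofReal
        have h2 : (n:ℝ) ^ 2 ≤ (n:ℝ) ^ k := pow_le_pow_right₀ hn1 hk
        have h3 : (n:ℝ) / 6 ≤ 1 / (2 * (2 * (n:ℝ) + 1)) * (n:ℝ) ^ 2 := by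
          rw [div_mul_eq_mul_div, one_mul, div_le_div_iff₀ (by norm_num) (by positivity)]
          nlinarith
        exact h3.trans (mul_le_mul_of_nonneg_left h2 (by positivity))
    _ = ENNReal.ofReal (1 / (2 * (2 * (n:ℝ) + 1))) * (n:ℝ≥0∞) ^ k := by
        rw [ENNReal.ofReal_mul (by positivity), ENNReal.ofReal_pow (by positivity),
          ENNReal.ofReal_natCast]
    _ ≤ err DD (Fk k DD) n * (n:ℝ≥0∞) ^ k := by
        gcongr
        exact err_lower k n hn

end Pool.Agent.Results.MP_935800_an.NoLimit
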